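import Pool.Agent.N838.CR.Stm

/-!
# CR/HERM: a normal matrix with spectrum on a line
-/

set_option autoImplicit false

namespace Pool.Agent.N751.CR

open scoped Matrix.Norms.L2Operator

theorem t_HERM : N838.CR.HERM := by
  intro n A al z u t hA hu hroots hal
  have huu : star u * u = 1 := by
    have h : star u * u = ((Complex.normSq u : ℝ) : ℂ) := by
      rw [Complex.star_def, mul_comm, Complex.mul_conj]
    rw [h, Complex.normSq_eq_norm_sq, hu]
    norm_num
  have huu' : u * star u = 1 := by rw [mul_comm]; exact huu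
  obtain ⟨H, hH⟩ : ∃ H : Matrix (Fin n) (Fin n) ℂ,
      H = star u • (A - z • (1 : Matrix (Fin n) (Fin n) ℂ)) := ⟨_, rfl⟩
  have hAH : A = z • (1 : Matrix (Fin n) (Fin n) ℂ) + u • H := by
    rw [hH, smul_smul, huu', one_smul]
    abel
  have hcomm : Commute (star A) A := by
    change star A * A = A * star A
    exact hA.symm
  have hstar : star H = u • (star A - star z • (1 : Matrix (Fin n) (Fin n) ℂ)) := by
    rw [hH, star_smul, star_sub, star_smul, star_one, star_star]
  have hN : IsStarNormal H := by
    refine ⟨?_⟩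
    rw [hstar]
    conv => rw [hH]
    refine Commute.smul_left (Commute.smul_right ?_ _) _
    refine Commute.sub_left ?_ (Commute.smul_left (Commute.one_left _) _)
    exact Commute.sub_right hcomm (Commute.smul_right (Commute.one_right _) _)
  have hspec : ∀ μ ∈ spectrum ℂ H, ((μ.re : ℝ) : ℂ) = μ := by
    intro μ hμ
    have h1 : z + u * μ ∈ spectrum ℂ A := by
      rw [spectrum.mem_iff] at hμ ⊢
      intro h
      apply hμ
      have e : algebraMap ℂ (Matrix (Fin n) (Fin n) ℂ) μ - H =
          algebraMap ℂ (Matrix (Fin n) (Fin n) ℂ) (star u) *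
            (algebraMap ℂ (Matrix (Fin n) (Fin n) ℂ) (z + u * μ) - A) := by
        rw [Algebra.algebraMap_eq_smul_one, Algebra.algebraMap_eq_smul_one,
          Algebra.algebraMap_eq_smul_one, smul_one_mul, hH, smul_sub, smul_sub, smul_smul,
          smul_smul]
        have e1 : star u * (z + u * μ) = star u * z + μ := by
          rw [mul_add, ← mul_assoc, huu, one_mul]
        rw [e1, add_smul]
        abel
      rw [e]
      exact IsUnit.mul (IsUnit.map _ (IsUnit.of_mul_eq_one _ huu)) h
    rw [Matrix.mem_spectrum_iff_isRoot_charpoly] at h1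
    have h2 : z + u * μ ∈ A.charpoly.roots :=
      (Polynomial.mem_roots (Matrix.charpoly_monic A).ne_zero).2 h1
    rw [hroots] at h2
    obtain ⟨i, -, hi⟩ := Multiset.mem_map.1 h2
    rw [hal i] at hi
    have h3 : u * (t i : ℂ) = u * μ := add_left_cancel hi
    have h4 : (t i : ℂ) = μ := by
      have h5 : star u * (u * (t i : ℂ)) = star u * (u * μ) := by rw [h3]
      rw [← mul_assoc, ← mul_assoc, huu, one_mul, one_mul] at h5
      exact h5
    rw [← h4, Complex.ofReal_re]
  have hres : SpectrumRestricts H Complex.reCLM :=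
    SpectrumRestricts.of_rightInvOn Complex.ofReal_re (fun μ hμ => hspec μ hμ)
  have hself : IsSelfAdjoint H := QuasispectrumRestricts.isSelfAdjoint H hres
  exact ⟨H, hself.star_eq, hAH⟩

end Pool.Agent.N751.CR
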